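import Pool.Agent.H99.CE.Targets
import Pool.Agent.H96.Cop.Dec

/-!
# PFD: decomposition at the first excursion with the weight `w'`
-/

set_option autoImplicit false

open MeasureTheory ProbabilityTheory Filter Topology
open scoped ENNReal
open Pool.Agent.H95 Pool.Agent.H95.Cop Pool.Agent.H96.Cop Pool.Agent.H99.CE

namespace Pool.Agent.H60.CE

/-- the part after the first `t` sites -/
noncomputable def gg (w w' : ℕ → (ℕ → ℝ) → ℝ≥0∞) (s : ℕ) (x : ℕ → ℝ) (t : ℕ) : ℝ≥0∞ :=
  ∑ m ∈ Finset.Icc 1 s, if t + m ≤ s then
    w' m (shift t x) * PF (fun n x => w n x + w' n x) (s - t - m) (shift (t + m) x) else 0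

theorem tt_eq (w w' : ℕ → (ℕ → ℝ) → ℝ≥0∞) (s : ℕ) (x : ℕ → ℝ) :
    ∑ t ∈ Finset.range (s + 1), ∑ m ∈ Finset.Icc 1 s, (if t + m ≤ s then PF w t x *
      (w' m (shift t x) * PF (fun n x => w n x + w' n x) (s - t - m) (shift (t + m) x)) else 0) =
    ∑ t ∈ Finset.range (s + 1), PF w t x * gg w w' s x t := by
  refine Finset.sum_congr rfl fun t _ => ?_
  unfold gg
  rw [Finset.mul_sum]
  refine Finset.sum_congr rfl fun m _ => ?_
  rw [mul_ite, mul_zero]

theorem gg_shift (w w' : ℕ → (ℕ → ℝ) → ℝ≥0∞) (s j t : ℕ) (x : ℕ → ℝ) (hj : j ≤ s) :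
    gg w w' (s - j) (shift (j + 1) x) t ≤ gg w w' (s + 1) x (j + t + 1) := by
  unfold gg
  have h1 : ∀ m ∈ Finset.Icc 1 (s - j), (if t + m ≤ s - j then
      w' m (shift t (shift (j + 1) x)) * PF (fun n x => w n x + w' n x) (s - j - t - m)
        (shift (t + m) (shift (j + 1) x)) else 0) =
      if j + t + 1 + m ≤ s + 1 then
      w' m (shift (j + t + 1) x) * PF (fun n x => w n x + w' n x) (s + 1 - (j + t + 1) - m)
        (shift (j + t + 1 + m) x) else 0 := by
    intro m _
    have e1 : t + (j + 1) = j + t + 1 := by omega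
    have e2 : t + m + (j + 1) = j + t + 1 + m := by omega
    have e3 : s - j - t - m = s + 1 - (j + t + 1) - m := by omega
    rw [shift_shift, shift_shift, e1, e2, e3]
    by_cases h : t + m ≤ s - j
    · rw [if_pos h, if_pos (by omega)]
    · rw [if_neg h, if_neg (by omega)]
  rw [Finset.sum_congr rfl h1]
  refine Finset.sum_le_sum_of_subset fun m hm => ?_
  rw [Finset.mem_Icc] at hm ⊢
  omega

theorem pf_PFD : T_PFD := by
  intro w w' s
  obtain ⟨W, hW⟩ : ∃ W : ℕ → (ℕ → ℝ) → ℝ≥0∞, W = fun n x => w n x + w' n x := ⟨_, rfl⟩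
  induction s using Nat.strong_induction_on with
  | _ s ih =>
    intro x
    rw [tt_eq]
    cases s with
    | zero =>
      rw [PF_zero, PF_zero]
      exact self_le_add_right _ _
    | succ s =>
      rw [← hW] at ih ⊢
      have e0 : PF W (s + 1) x = ∑ j ∈ Finset.range (s + 1), w (j + 1) x *
          PF W (s - j) (shift (j + 1) x) + ∑ j ∈ Finset.range (s + 1), w' (j + 1) x *
          PF W (s - j) (shift (j + 1) x) := by
        rw [PF_succ, ← Finset.sum_add_distrib]
        refine Finset.sum_congr rfl fun j _ => ?_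
        rw [hW]
        exact add_mul _ _ _
      have e1 : ∑ j ∈ Finset.range (s + 1), w' (j + 1) x * PF W (s - j) (shift (j + 1) x) ≤
          PF w 0 x * gg w w' (s + 1) x 0 := by
        rw [PF_zero, one_mul]
        unfold gg
        rw [← hW]
        have h1 : ∑ j ∈ Finset.range (s + 1), w' (j + 1) x * PF W (s - j) (shift (j + 1) x) =
            ∑ m ∈ Finset.Icc 1 (s + 1), w' m x * PF W (s + 1 - m) (shift m x) := by
          have h5 := Finset.sum_Ico_add' (fun m => w' m x * PF W (s + 1 - m) (shift m x))
            0 (s + 1) 1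
          have h6 : Finset.Ico (0 + 1) (s + 1 + 1) = Finset.Icc 1 (s + 1) := by
            ext m
            rw [Finset.mem_Ico, Finset.mem_Icc]
            omega
          rw [h6] at h5
          rw [← h5, Finset.range_eq_Ico]
          refine Finset.sum_congr rfl fun j _ => ?_
          have h7 : s + 1 - (j + 1) = s - j := by omega
          rw [h7]
        rw [h1]
        refine Finset.sum_le_sum fun m hm => ?_
        rw [Finset.mem_Icc] at hm
        rw [if_pos (by omega), Nat.zero_add, Nat.sub_zero, shift_zero]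
      have e2 : ∑ j ∈ Finset.range (s + 1), w (j + 1) x * PF W (s - j) (shift (j + 1) x) ≤
          PF w (s + 1) x + ∑ t ∈ Finset.range (s + 1), PF w (t + 1) x *
            gg w w' (s + 1) x (t + 1) := by
        have h1 : ∀ j ∈ Finset.range (s + 1), w (j + 1) x * PF W (s - j) (shift (j + 1) x) ≤
            w (j + 1) x * PF w (s - j) (shift (j + 1) x) +
              ∑ t ∈ Finset.range (s + 1 - j), w (j + 1) x * PF w t (shift (j + 1) x) *
                gg w w' (s + 1) x (j + t + 1) := by
          intro j hj
          rw [Finset.mem_range] at hj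
          have h2 := ih (s - j) (by omega) (shift (j + 1) x)
          rw [hW, tt_eq, ← hW] at h2
          refine (mul_le_mul_right h2 _).trans ?_
          rw [mul_add]
          refine add_le_add le_rfl ?_
          rw [Finset.mul_sum]
          have h3 : s - j + 1 = s + 1 - j := by omega
          rw [h3]
          refine Finset.sum_le_sum fun t ht => ?_
          rw [Finset.mem_range] at ht
          rw [← mul_assoc]
          exact mul_le_mul_right (gg_shift w w' s j t x (by omega)) _
        refine (Finset.sum_le_sum h1).trans (le_of_eq ?_)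
        rw [Finset.sum_add_distrib, ← PF_succ]
        congr 1
        rw [sum_tri (s + 1) (fun j t => w (j + 1) x * PF w t (shift (j + 1) x) *
          gg w w' (s + 1) x (j + t + 1))]
        refine Finset.sum_congr rfl fun t _ => ?_
        rw [PF_succ, Finset.sum_mul]
        refine Finset.sum_congr rfl fun j hj => ?_
        rw [Finset.mem_range] at hj
        have h4 : j + (t - j) + 1 = t + 1 := by omega
        rw [h4]
      rw [e0, Finset.sum_range_succ' (fun t => PF w t x * gg w w' (s + 1) x t) (s + 1)]
      calc _ ≤ (PF w (s + 1) x + ∑ t ∈ Finset.range (s + 1), PF w (t + 1) x *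
            gg w w' (s + 1) x (t + 1)) + PF w 0 x * gg w w' (s + 1) x 0 := add_le_add e2 e1
        _ = _ := by rw [add_assoc]

end Pool.Agent.H60.CE
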