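import Pool.Agent.H99.CE.Targets

/-!
# Row PRC: the remaining conditions for small parameters
-/

set_option autoImplicit false

open MeasureTheory ProbabilityTheory Filter Topology
open scoped ENNReal
open Pool.Agent.H95 Pool.Agent.H95.Cop Pool.Agent.H96.Cop Pool.Agent.H99.CE

namespace Pool.Agent.H60.CE

theorem Lg_atTop : Tendsto Lg (𝓝[>] (0 : ℝ)) atTop := by
  unfold Lg
  have h1 : Tendsto (fun α : ℝ => 1 / α) (𝓝[>] (0 : ℝ)) atTop := by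
    simpa only [one_div] using tendsto_inv_nhdsGT_zero (𝕜 := ℝ)
  exact Real.tendsto_log_atTop.comp h1

theorem rpow_eq_Lg {α : ℝ} (hα : 0 < α) (r : ℝ) : α ^ r = Real.exp (-(r * Lg α)) := by
  rw [Real.rpow_def_of_pos hα]
  unfold Lg
  rw [one_div, Real.log_inv]
  congr 1
  ring

theorem Lg_pow_mul (r : ℝ) (hr : 0 < r) (n : ℕ) :
    Tendsto (fun α : ℝ => Lg α ^ n * α ^ r) (𝓝[>] (0 : ℝ)) (𝓝 0) := by
  have h1 : Tendsto (fun y : ℝ => (r ^ n)⁻¹ * ((r * y) ^ n * Real.exp (-(r * y)))) atTop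
      (𝓝 ((r ^ n)⁻¹ * 0)) := by
    refine Tendsto.const_mul _ ?_
    exact (Real.tendsto_pow_mul_exp_neg_atTop_nhds_zero n).comp (tendsto_id.const_mul_atTop hr)
  rw [mul_zero] at h1
  have h2 := h1.comp Lg_atTop
  refine h2.congr' ?_
  filter_upwards [self_mem_nhdsWithin] with α hα
  have hα0 : 0 < α := hα
  have hrn : r ^ n ≠ 0 := (pow_pos hr n).ne'
  simp only [Function.comp]
  rw [rpow_eq_Lg hα0 r, mul_pow]
  field_simp

theorem inv_le' {α : ℝ} (h0 : 0 < α) : 1 / (1 + α) ≤ 1 - α + α ^ 2 := by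
  rw [div_le_iff₀ (by linarith)]
  nlinarith [pow_pos h0 3]

theorem prc_four {α σ C : ℝ} (hσ : 0 < σ) (hC : 1 ≤ C) (h0 : 0 < α) (h1 : α ≤ 1)
    (hL : 1 ≤ Lg α) (hs : 4 * C * (3 + 1 / σ) * (Lg α ^ 2 * α ^ σ) ≤ 1) :
    4 * (α ^ 2 * (C * Lg α ^ 2) * (1 / ((Mf α ^ Jf α * n0f α : ℕ) : ℝ)) ^ sg α σ *
      (3 + 1 / sg α σ)) ≤ 1 := by
  have hL0 : 0 < Lg α := by linarith
  have hα2 : 0 < α ^ 2 := by positivity
  have hsg : σ * α ^ 2 ≤ sg α σ := by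
    unfold sg
    have : 0 < σ * α ^ 2 := by positivity
    nlinarith
  have hsg0 : 0 < sg α σ := lt_of_lt_of_le (by positivity) hsg
  have hX : Real.exp (Lg α / α ^ 2) ≤ ((Mf α ^ Jf α * n0f α : ℕ) : ℝ) := by
    have hM : Real.exp (hf α / α ^ 2) ≤ (Mf α : ℝ) := Nat.le_ceil _
    have hJ : Lg α ^ 4 ≤ (Jf α : ℝ) := Nat.le_ceil _
    have hn : (1 : ℝ) ≤ (n0f α : ℝ) := by
      have : 0 < n0f α := Nat.ceil_pos.2 (Real.exp_pos _)
      exact_mod_cast this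
    have hMJ : Real.exp (Lg α / α ^ 2) ≤ (Mf α : ℝ) ^ Jf α := by
      have e1 : Real.exp (Lg α / α ^ 2) ≤ Real.exp (hf α / α ^ 2) ^ Jf α := by
        rw [← Real.exp_nat_mul, Real.exp_le_exp, ← mul_div_assoc]
        refine div_le_div_of_nonneg_right ?_ hα2.le
        have e2 : Lg α = Lg α ^ 4 * hf α := by
          unfold hf
          field_simp
        have e3 : 0 ≤ hf α := by
          unfold hf
          positivity
        calc Lg α = Lg α ^ 4 * hf α := e2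
          _ ≤ _ := mul_le_mul_of_nonneg_right hJ e3
      exact e1.trans (pow_le_pow_left₀ (Real.exp_pos _).le hM _)
    push_cast
    calc Real.exp (Lg α / α ^ 2) ≤ (Mf α : ℝ) ^ Jf α := hMJ
      _ = (Mf α : ℝ) ^ Jf α * 1 := (mul_one _).symm
      _ ≤ _ := mul_le_mul_of_nonneg_left hn (by positivity)
  have hp : (1 / ((Mf α ^ Jf α * n0f α : ℕ) : ℝ)) ^ sg α σ ≤ α ^ σ := by
    have h2 : 1 / ((Mf α ^ Jf α * n0f α : ℕ) : ℝ) ≤ Real.exp (-(Lg α / α ^ 2)) := by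
      rw [Real.exp_neg, one_div]
      exact inv_anti₀ (Real.exp_pos _) hX
    have h3 : (0 : ℝ) ≤ 1 / ((Mf α ^ Jf α * n0f α : ℕ) : ℝ) := by positivity
    refine (Real.rpow_le_rpow h3 h2 hsg0.le).trans ?_
    rw [← Real.exp_mul, rpow_eq_Lg h0 σ, Real.exp_le_exp]
    have h4 : σ * Lg α ≤ Lg α / α ^ 2 * sg α σ := by
      have e1 : σ * Lg α = Lg α / α ^ 2 * (σ * α ^ 2) := by field_simp
      rw [e1]
      exact mul_le_mul_of_nonneg_left hsg (by positivity)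
    linarith
  have hi : 3 + 1 / sg α σ ≤ (3 + 1 / σ) / α ^ 2 := by
    have e1 : 1 / sg α σ ≤ 1 / (σ * α ^ 2) := one_div_le_one_div_of_le (by positivity) hsg
    have e2 : (3 + 1 / σ) / α ^ 2 = 3 / α ^ 2 + 1 / (σ * α ^ 2) := by field_simp
    have e3 : 3 ≤ 3 / α ^ 2 := by
      rw [le_div_iff₀ hα2]
      nlinarith
    rw [e2]
    linarith
  have hσi : 0 < 3 + 1 / σ := by positivity
  have hp0 : 0 ≤ (1 / ((Mf α ^ Jf α * n0f α : ℕ) : ℝ)) ^ sg α σ :=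
    Real.rpow_nonneg (by positivity) _
  calc 4 * (α ^ 2 * (C * Lg α ^ 2) * (1 / ((Mf α ^ Jf α * n0f α : ℕ) : ℝ)) ^ sg α σ *
      (3 + 1 / sg α σ)) ≤ 4 * (α ^ 2 * (C * Lg α ^ 2) * α ^ σ * ((3 + 1 / σ) / α ^ 2)) := by
        refine mul_le_mul_of_nonneg_left ?_ (by norm_num)
        refine mul_le_mul ?_ hi (by positivity) (by positivity)
        exact mul_le_mul_of_nonneg_left hp (by positivity)
    _ = 4 * C * (3 + 1 / σ) * (Lg α ^ 2 * α ^ σ) := by field_simp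
    _ ≤ 1 := hs

theorem pf_PRC : T_PRC := by
  intro σ d δ C κ hσ hσ1 hd hδ hδ1 hC hκ
  have hm : 0 < min (1 / 4 : ℝ) (min (1 / (2 * (1 + d))) (δ ^ 2 / 16)) := by
    refine lt_min (by norm_num) (lt_min (by positivity) (by positivity))
  have f1 : ∀ᶠ α in 𝓝[>] (0 : ℝ), α < min (1 / 4 : ℝ) (min (1 / (2 * (1 + d))) (δ ^ 2 / 16)) :=
    (eventually_lt_nhds hm).filter_mono nhdsWithin_le_nhds
  have f2 : ∀ᶠ α in 𝓝[>] (0 : ℝ), max 1 (1 / κ) ≤ Lg α :=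
    Lg_atTop.eventually (eventually_ge_atTop _)
  have f3 : ∀ᶠ α in 𝓝[>] (0 : ℝ), Lg α ^ 6 * α ^ (1 / 4 : ℝ) < κ / 2 :=
    (Lg_pow_mul (1 / 4) (by norm_num) 6).eventually (eventually_lt_nhds (by positivity))
  have f4 : ∀ᶠ α in 𝓝[>] (0 : ℝ), Lg α ^ 2 * α ^ (1 / 4 : ℝ) < κ / 2 :=
    (Lg_pow_mul (1 / 4) (by norm_num) 2).eventually (eventually_lt_nhds (by positivity))
  have hK : 0 < 4 * C * (3 + 1 / σ) := by positivity
  have f5 : ∀ᶠ α in 𝓝[>] (0 : ℝ), Lg α ^ 2 * α ^ σ < 1 / (4 * C * (3 + 1 / σ)) :=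
    (Lg_pow_mul σ hσ 2).eventually (eventually_lt_nhds (by positivity))
  filter_upwards [self_mem_nhdsWithin, f1, f2, f3, f4, f5] with α hα g1 g2 g3 g4 g5
  have h0 : 0 < α := hα
  rw [lt_min_iff, lt_min_iff] at g1
  obtain ⟨a1, a2, a3⟩ := g1
  rw [max_le_iff] at g2
  obtain ⟨b1, b2⟩ := g2
  have hL0 : 0 < Lg α := by linarith
  refine ⟨?_, ?_, ?_, ?_, ?_, ?_, ?_, h0, ?_⟩
  · nlinarith
  · have e1 : hf α * Lg α ^ 2 = 1 / Lg α := by
      unfold hf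
      field_simp
    rw [e1, div_le_iff₀ hL0]
    rw [div_le_iff₀ hκ] at b2
    linarith
  · have e1 : (Jf α : ℝ) ≤ Lg α ^ 4 + 1 := (Nat.ceil_lt_add_one (by positivity)).le
    have e2 : 0 ≤ α ^ (1 / 4 : ℝ) := Real.rpow_nonneg h0.le _
    calc (Jf α : ℝ) * α ^ (1 / 4 : ℝ) * Lg α ^ 2 ≤ (Lg α ^ 4 + 1) * α ^ (1 / 4 : ℝ) * Lg α ^ 2 := by
          refine mul_le_mul_of_nonneg_right ?_ (by positivity)
          exact mul_le_mul_of_nonneg_right e1 e2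
      _ = Lg α ^ 6 * α ^ (1 / 4 : ℝ) + Lg α ^ 2 * α ^ (1 / 4 : ℝ) := by ring
      _ ≤ κ := by linarith
  · refine prc_four hσ hC h0 (by linarith) b1 ?_
    have e1 := mul_le_mul_of_nonneg_left g5.le hK.le
    rwa [mul_one_div_cancel hK.ne'] at e1
  · linarith
  · have e1 := inv_le' h0
    have e2 : (1 + d) * α < 1 := by
      rw [lt_div_iff₀ (by positivity)] at a2
      nlinarith
    have e3 : α * ((1 + d) * α) < α * 1 := mul_lt_mul_of_pos_left e2 h0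
    nlinarith
  · linarith
  · unfold th
    have e1 := inv_le' h0
    have e3 : σ * α ^ 2 ≤ 1 * α ^ 2 := mul_le_mul_of_nonneg_right hσ1 (by positivity)
    nlinarith

end Pool.Agent.H60.CE
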