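import Pool.Agent.H99.CE.Targets

/-!
# Row STM: the masses of the skeleton
-/

set_option autoImplicit false

open MeasureTheory ProbabilityTheory Filter Topology
open scoped ENNReal
open Pool.Agent.H95 Pool.Agent.H95.Cop Pool.Agent.H96.Cop Pool.Agent.H99.CE

namespace Pool.Agent.H60.CE

theorem th_pos {α σ : ℝ} (hα : 0 < α) (hσ : 0 < σ) : 0 < th α σ := by
  unfold th
  positivity

theorem pf_STM (hPFM : T_PFM) (hHFT : T_HFT) (hGLO : T_GLO) (hNAT : T_NAT) : T_STM := by
  intro K ν _ α σ c δ k B hα hσ hth hc hδ hk hkB n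
  obtain ⟨hna, htb, -⟩ := hNAT α σ c δ k B 1 hα hσ hc hδ hk hkB le_rfl
  have hθ := th_pos hα hσ
  obtain ⟨t, ht⟩ : ∃ t, t = tb α c δ B := ⟨_, rfl⟩
  obtain ⟨θ, hθe⟩ : ∃ θ, θ = th α σ := ⟨_, rfl⟩
  have hn0 : ENNReal.ofReal (na α σ c δ k B) ≠ 0 := by
    rw [Ne, ENNReal.ofReal_eq_zero]
    exact not_le.2 hna
  have hn1 : ENNReal.ofReal (na α σ c δ k B) ≠ ∞ := ENNReal.ofReal_ne_top
  have hF : ∀ b x, BX (w1 K B) B b x ≠ ∞ := fun b x =>
    ((hPFM.1 (w1 K B) ((hPFM.2 K).1 B)).2.1 B b).2.2 x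
  rw [← ht, ← hθe]
  rw [← ht] at htb
  rw [← hθe] at hth hθ
  constructor
  · have h1 : ∀ b, ∫⁻ x, EE (fun b => BX (w1 K B) B b) (ENNReal.ofReal t) b x ^ θ ∂(iid ν) ≤
        (if b = 0 then ∫⁻ x, Hf t θ (BX (w1 K B) B 0 x) ∂(iid ν) else 0) +
          (b : ℝ≥0∞) * ∫⁻ x, BX (w1 K B) B b x ^ θ ∂(iid ν) := by
      intro b
      by_cases hb : b = 0
      · subst hb
        rw [if_pos rfl]
        refine le_add_right (lintegral_mono fun x => ?_)
        unfold EE
        rw [if_pos rfl]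
        by_cases hx : BX (w1 K B) B 0 x ≤ ENNReal.ofReal t
        · simp only [if_pos hx]
          rw [ENNReal.zero_rpow_of_pos hθ]
          exact zero_le
        · simp only [if_neg hx]
          rw [((hHFT t θ (BX (w1 K B) B 0 x) htb hθ hth).2.1) (not_le.1 hx)]
      · rw [if_neg hb, zero_add]
        have hb1 : (1 : ℝ≥0∞) ≤ (b : ℝ≥0∞) := by
          exact_mod_cast Nat.one_le_iff_ne_zero.2 hb
        have h2 : ∫⁻ x, EE (fun b => BX (w1 K B) B b) (ENNReal.ofReal t) b x ^ θ ∂(iid ν) =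
            ∫⁻ x, BX (w1 K B) B b x ^ θ ∂(iid ν) := by
          refine lintegral_congr fun x => ?_
          unfold EE
          rw [if_neg hb]
        rw [h2]
        exact le_mul_of_one_le_left zero_le hb1
    refine (Finset.sum_le_sum fun b _ => h1 b).trans ?_
    rw [Finset.sum_add_distrib, mul_add]
    unfold QN QR
    rw [ENNReal.mul_div_cancel hn0 hn1, ENNReal.mul_div_cancel hn0 hn1, ← ht, ← hθe]
    refine add_le_add ?_ (ENNReal.sum_le_tsum _)
    rw [Finset.sum_ite_eq' (Finset.range n) 0]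
    split_ifs
    · exact le_rfl
    · exact zero_le
  · have h1 : ∀ b, ∫⁻ x, EE (fun b => BX (w1 K B) B b) (ENNReal.ofReal t) b x ^ θ *
        (ENNReal.ofReal (α ^ 2) * lg t
          (EE (fun b => BX (w1 K B) B b) (ENNReal.ofReal t) b x)) ∂(iid ν) ≤
        ENNReal.ofReal (α ^ 2) * ∫⁻ x, Gf t θ (BX (w1 K B) B b x) ∂(iid ν) := by
      intro b
      rw [← lintegral_const_mul' _ _ ENNReal.ofReal_ne_top]
      refine lintegral_mono fun x => ?_
      have h2 : EE (fun b => BX (w1 K B) B b) (ENNReal.ofReal t) b x = 0 ∨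
          EE (fun b => BX (w1 K B) B b) (ENNReal.ofReal t) b x = BX (w1 K B) B b x := by
        unfold EE
        by_cases hb : b = 0
        · subst hb
          rw [if_pos rfl]
          by_cases hx : BX (w1 K B) B 0 x ≤ ENNReal.ofReal t
          · left
            exact if_pos hx
          · right
            exact if_neg hx
        · right
          rw [if_neg hb]
      rcases h2 with h2 | h2
      · rw [h2, ENNReal.zero_rpow_of_pos hθ, zero_mul]
        exact zero_le
      · rw [h2]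
        have h3 := hGLO t θ (BX (w1 K B) B b x) htb hθ hth (hF b x)
        calc BX (w1 K B) B b x ^ θ * (ENNReal.ofReal (α ^ 2) * lg t (BX (w1 K B) B b x)) =
            ENNReal.ofReal (α ^ 2) * (BX (w1 K B) B b x ^ θ * lg t (BX (w1 K B) B b x)) := by
              ring
          _ ≤ _ := mul_le_mul_right h3 _
    refine (Finset.sum_le_sum fun b _ => h1 b).trans ?_
    unfold QG
    rw [ENNReal.mul_div_cancel hn0 hn1, ← ht, ← hθe, ← Finset.mul_sum]
    exact mul_le_mul_right (ENNReal.sum_le_tsum _) _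

end Pool.Agent.H60.CE
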