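import Pool.Agent.H99.CE.Targets
import Pool.Agent.H96.Cop.Est

/-!
# Row TMN: truncated means
-/

set_option autoImplicit false

open MeasureTheory ProbabilityTheory Filter Topology
open scoped ENNReal
open Pool.Agent.H95 Pool.Agent.H95.Cop Pool.Agent.H96.Cop Pool.Agent.H99.CE

namespace Pool.Agent.H60.CE

theorem sum_Icc_one (f : ℕ → ℝ) (N : ℕ) :
    ∑ m ∈ Finset.Icc 1 N, f m = ∑ j ∈ Finset.range N, f (j + 1) := by
  induction N with
  | zero => simp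
  | succ N ih =>
    rw [Finset.sum_Icc_succ_top (by omega), Finset.sum_range_succ, ih]

theorem tmn_low (K : PMF ℕ) (α c δ : ℝ) (n1 N : ℕ) (hα : 0 < α) (hc : 0 < c) (hδ : δ ≤ 1)
    (hR : Reg K α c δ n1) (hN : 1 ≤ N) (hn : n1 ≤ N) :
    (1 - δ) * (1 - α) * (c / α) * (N : ℝ) ^ (-α) ≤ tailK K (N + 1) := by
  have hN0 : (0 : ℝ) < N := by exact_mod_cast hN
  have hN1 : (1 : ℝ) ≤ N := by exact_mod_cast hN
  have hd : 0 ≤ (1 - δ) * c := mul_nonneg (by linarith) hc.le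
  have h1 : ∀ L : ℕ, N + 1 ≤ L →
      (1 - δ) * c * ((((N + 1 : ℕ) : ℝ) ^ (-α) - (L : ℝ) ^ (-α)) / α) ≤ tailK K (N + 1) := by
    intro L hL
    refine le_trans ?_ (sum_kk_Ico_le K (N + 1) L hL)
    refine le_trans (mul_le_mul_of_nonneg_left (sum_pow_low hα (by omega) hL) hd) ?_
    rw [Finset.mul_sum]
    apply Finset.sum_le_sum
    intro n hn'
    rw [Finset.mem_Ico] at hn'
    exact (hR n (by omega)).1
  have h2 : Tendsto (fun L : ℕ => (1 - δ) * c * ((((N + 1 : ℕ) : ℝ) ^ (-α) -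
      (L : ℝ) ^ (-α)) / α)) atTop
      (𝓝 ((1 - δ) * c * ((((N + 1 : ℕ) : ℝ) ^ (-α) - 0) / α))) := by
    apply Tendsto.const_mul
    apply Tendsto.div_const
    apply Tendsto.sub tendsto_const_nhds
    exact (tendsto_rpow_neg_atTop hα).comp tendsto_natCast_atTop_atTop
  have h3 : (1 - δ) * c * ((((N + 1 : ℕ) : ℝ) ^ (-α) - 0) / α) ≤ tailK K (N + 1) := by
    refine le_of_tendsto h2 ?_
    filter_upwards [eventually_ge_atTop (N + 1)] with L hL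
    exact h1 L hL
  refine le_trans ?_ h3
  have h4 : (1 - α) * (N : ℝ) ^ (-α) ≤ ((N + 1 : ℕ) : ℝ) ^ (-α) := by
    have h5 := tele_up (s := α) (x := (N : ℝ) + 1) (y := N) hα.le hN0 (by linarith)
    have h6 : (N : ℝ) ^ (-(1 + α)) ≤ (N : ℝ) ^ (-α) :=
      Real.rpow_le_rpow_of_exponent_le hN1 (by linarith)
    have h7 : α * ((N : ℝ) + 1 - N) * (N : ℝ) ^ (-(1 + α)) ≤ α * (N : ℝ) ^ (-α) := by
      have e : α * ((N : ℝ) + 1 - N) * (N : ℝ) ^ (-(1 + α)) = α * (N : ℝ) ^ (-(1 + α)) := by ring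
      rw [e]
      exact mul_le_mul_of_nonneg_left h6 hα.le
    push_cast
    linarith
  have h5 : (1 - δ) * (1 - α) * (c / α) * (N : ℝ) ^ (-α) =
      (1 - δ) * c / α * ((1 - α) * (N : ℝ) ^ (-α)) := by
    field_simp
  have h6 : (1 - δ) * c * ((((N + 1 : ℕ) : ℝ) ^ (-α) - 0) / α) =
      (1 - δ) * c / α * ((N + 1 : ℕ) : ℝ) ^ (-α) := by
    rw [sub_zero]
    ring
  rw [h5, h6]
  exact mul_le_mul_of_nonneg_left h4 (div_nonneg hd hα.le)

theorem tmn_mean (K : PMF ℕ) (hK0 : K 0 = 0) (α c δ : ℝ) (hα : 0 < α) (hα1 : α ≤ 1 / 20)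
    (hc : 0 < c) (hδ0 : 0 < δ) (hδ : δ ≤ 1 / 20) (n0 : ℕ)
    (hup : ∀ n : ℕ, n0 ≤ n → kk K n ≤ (1 + δ) * c * (n : ℝ) ^ (-(1 + α))) (k : ℕ)
    (hk : (n0 : ℝ) ≤ c * (k : ℝ) ^ (1 - α)) :
    ∑ j ∈ Finset.range k, ((j : ℝ) + 1) * kk K (j + 1) ≤ 3 * c * (k : ℝ) ^ (1 - α) := by
  have h1 : ∀ j ∈ Finset.range k, ((j : ℝ) + 1) * kk K (j + 1) ≤
      n0 * kk K (j + 1) + (1 + δ) * c * ((j : ℝ) + 1) ^ (-α) := by
    intro j _
    have hj : (0:ℝ) < (j : ℝ) + 1 := by positivity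
    have h0 := kk_nonneg K (j + 1)
    have hp : 0 ≤ ((j : ℝ) + 1) ^ (-α) := Real.rpow_nonneg hj.le _
    by_cases h : n0 ≤ j + 1
    · have h2 := hup (j + 1) h
      have h3 : ((j : ℝ) + 1) * ((1 + δ) * c * (((j + 1 : ℕ) : ℝ)) ^ (-(1 + α))) =
          (1 + δ) * c * ((j : ℝ) + 1) ^ (-α) := by
        push_cast
        rw [show -(1 + α) = -α + (-1) by ring, Real.rpow_add hj, Real.rpow_neg_one]
        field_simp
      have h4 := mul_le_mul_of_nonneg_left h2 hj.le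
      rw [h3] at h4
      have : 0 ≤ (n0 : ℝ) * kk K (j + 1) := by positivity
      linarith
    · have h2 : ((j : ℝ) + 1) ≤ n0 := by
        have : j + 1 ≤ n0 := by omega
        exact_mod_cast this
      have := mul_le_mul_of_nonneg_right h2 h0
      have : 0 ≤ (1 + δ) * c * ((j : ℝ) + 1) ^ (-α) := by positivity
      linarith
  refine (Finset.sum_le_sum h1).trans ?_
  rw [Finset.sum_add_distrib, ← Finset.mul_sum, ← Finset.mul_sum, sum_kk_succ K hK0]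
  have h2 := tailK_nonneg K (k + 1)
  have h3 := sum_rpow_le α hα (by linarith) k
  have hkp : 0 ≤ (k : ℝ) ^ (1 - α) := Real.rpow_nonneg (Nat.cast_nonneg k) _
  have h4 : (k : ℝ) ^ (1 - α) / (1 - α) ≤ 3 / 2 * (k : ℝ) ^ (1 - α) := by
    rw [div_le_iff₀ (by linarith)]
    nlinarith
  have h5 : (n0 : ℝ) * (1 - tailK K (k + 1)) ≤ n0 := by
    have : (0:ℝ) ≤ n0 := Nat.cast_nonneg n0
    nlinarith
  have h6 : (1 + δ) * c * ∑ j ∈ Finset.range k, ((j : ℝ) + 1) ^ (-α) ≤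
      (1 + δ) * c * (3 / 2 * (k : ℝ) ^ (1 - α)) :=
    mul_le_mul_of_nonneg_left (h3.trans h4) (by positivity)
  have h7 : (1 + δ) * c * (3 / 2 * (k : ℝ) ^ (1 - α)) ≤ 2 * (c * (k : ℝ) ^ (1 - α)) := by
    have h8 : 0 ≤ c * (k : ℝ) ^ (1 - α) := mul_nonneg hc.le hkp
    nlinarith
  linarith

theorem pf_TMN : T_TMN := by
  intro K hK0 α c δ n1 N hα hα1 hc hδ0 hδ1 hR hN hn hnN
  constructor
  · rw [sum_Icc_one (fun m => (m : ℝ) * kk K m)]
    have h := tmn_mean K hK0 α c δ hα hα1 hc hδ0 hδ1 n1 (fun n hn' => (hR n hn').2) N hn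
    push_cast
    exact h
  · rw [sum_Icc_one (fun m => kk K m), sum_kk_succ K hK0]
    have h := tmn_low K α c δ n1 N hα hc (by linarith) hR hN hnN
    linarith

end Pool.Agent.H60.CE
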